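import Pool.Agent.Y384.SM.Slow
import Pool.Agent.Y384.SM.Order
import Pool.Agent.Y384.SM.Conv

/-! # Thin sets whose sum with every basis has positive Schnirelmann density

The question of Stöhr for bases of every order, with the optimal order of magnitude
`n ^ (1 - 1 / h)`, and the exact range of growth conditions on `B` that a set of density zero
can handle. -/

set_option autoImplicit false

namespace Pool.Agent.Results.MP_b92640_nt.AllOrders

open Finset Filter Topology
open scoped Pointwise

open Classical in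
/-- The counting function `A(n)`, the number of elements of `A` in `[1, n]`. -/
noncomputable def cnt (A : Set ℕ) (n : ℕ) : ℕ := ((Icc 1 n).filter (· ∈ A)).card

/-- `B` contains `0` and every natural number is a sum of `h` elements of `B`. -/
def IsBasis (B : Set ℕ) (h : ℕ) : Prop :=
  0 ∈ B ∧ ∀ n : ℕ, ∃ f : Fin h → ℕ, (∀ i, f i ∈ B) ∧ ∑ i, f i = n

/-- `A` has asymptotic density `d`. -/
def HasDensity (A : Set ℕ) (d : ℝ) : Prop :=
  Tendsto (fun n : ℕ => (cnt A n : ℝ) / n) atTop (𝓝 d)

open Classical in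
lemma cnt_range {B : Set ℕ} (h0 : 0 ∈ B) (n : ℕ) :
    ((range (n + 1)).filter (· ∈ B)).card = cnt B n + 1 := by
  have e : (range (n + 1)).filter (· ∈ B) = insert 0 ((Icc 1 n).filter (· ∈ B)) := by
    ext x
    rw [mem_filter, mem_range, mem_insert, mem_filter, mem_Icc]
    constructor
    · rintro ⟨h1, h2⟩
      rcases Nat.eq_zero_or_pos x with h | h
      · exact Or.inl h
      · exact Or.inr ⟨⟨h, by omega⟩, h2⟩
    · rintro (rfl | ⟨h1, h2⟩)
      · exact ⟨by omega, h0⟩
      · exact ⟨by omega, h2⟩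
  rw [e, card_insert_of_notMem]
  · rfl
  · rw [mem_filter, mem_Icc]
    omega

open Classical in
lemma cnt_eq (A : Set ℕ) (n : ℕ) : cnt A n = ((Ioc 0 n).filter (· ∈ A)).card := by
  unfold cnt
  congr 1

lemma zero_density_of_power {A : Set ℕ} {k : ℕ} (h : ∀ n, cnt A n ^ (k + 2) ≤ n ^ (k + 1)) :
    HasDensity A 0 := by
  unfold HasDensity
  rw [Metric.tendsto_atTop]
  intro ε hε
  obtain ⟨K, hK⟩ := exists_nat_gt (1 / ε ^ (k + 2))
  refine ⟨K + 1, fun n hn => ?_⟩
  have hnpos : (0 : ℝ) < n := by
    have : 0 < n := by omega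
    exact_mod_cast this
  rw [Real.dist_eq, sub_zero, abs_of_nonneg (by positivity), div_lt_iff₀ hnpos]
  refine lt_of_pow_lt_pow_left₀ (k + 2) (by positivity) ?_
  have h1 : (cnt A n : ℝ) ^ (k + 2) ≤ (n : ℝ) ^ (k + 1) := by exact_mod_cast h n
  have h2 : (K : ℝ) < n := by
    have : K < n := by omega
    exact_mod_cast this
  have h3 : 1 < ε ^ (k + 2) * n := by
    rw [div_lt_iff₀ (by positivity)] at hK
    nlinarith [pow_pos hε (k + 2)]
  calc (cnt A n : ℝ) ^ (k + 2) ≤ (n : ℝ) ^ (k + 1) := h1
    _ < (n : ℝ) ^ (k + 1) * (ε ^ (k + 2) * n) := lt_mul_of_one_lt_right (by positivity) h3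
    _ = (ε * n) ^ (k + 2) := by ring

open Classical in
lemma sigma_pos {C : Set ℕ} (h1 : 1 ∈ C) (hC : HasDensity C 1) : 0 < schnirelmannDensity C := by
  obtain ⟨K, hK⟩ := eventually_atTop.1 (hC.eventually (lt_mem_nhds (show (1 / 2 : ℝ) < 1 by
    norm_num)))
  have key : (1 : ℝ) / (K + 2) ≤ schnirelmannDensity C := by
    rw [le_schnirelmannDensity_iff]
    intro n hn
    have hnpos : (0 : ℝ) < n := by
      have : 0 < n := by omega
      exact_mod_cast this
    have h2 : (1 : ℝ) ≤ cnt C n := by
      have : 1 ≤ cnt C n := by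
        unfold cnt
        rw [Nat.one_le_iff_ne_zero, ← Nat.pos_iff_ne_zero, card_pos]
        exact ⟨1, mem_filter.2 ⟨mem_Icc.2 ⟨le_rfl, by omega⟩, h1⟩⟩
      exact_mod_cast this
    have h3 : (1 : ℝ) / (K + 2) ≤ (cnt C n : ℝ) / n := by
      rcases lt_or_ge n K with h | h
      · rw [div_le_div_iff₀ (by positivity) hnpos]
        have : (n : ℝ) < K := by exact_mod_cast h
        nlinarith
      · have h4 := hK n h
        have h5 : (1 : ℝ) / (K + 2) ≤ 1 / 2 := by
          apply div_le_div_of_nonneg_left (by norm_num) (by norm_num)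
          have : (0 : ℝ) ≤ K := by positivity
          linarith
        linarith
    rw [cnt_eq] at h3
    convert h3
  exact lt_of_lt_of_le (by positivity) key

open Classical in
/-- **Thin sets for all orders.**

(1) For every `h ≥ 2` there is a set `A` with `0 ∈ A`, not equal to `{0, 1} ∪ primes`, with
`A(n) ≤ n ^ (1 - 1 / h)` for all `n` (so of density zero), such that
`schnirelmannDensity (A + B) ≥ 1 / (4 * 8 ^ h)` for every basis `B` of order `h`, and indeed for
every `B` containing `0` and `1` with `(B(n) + 1) ^ h ≥ n` for all `n`.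

(2) For every function `g` tending to infinity there is one set `A` of density zero with
`0 ∈ A`, not equal to `{0, 1} ∪ primes`, such that `A + B` has density one and positive
Schnirelmann density for every basis `B` of every finite order, and such that `A + B` has density
one for every `B` with `B(n) ≥ g n` for all large `n` (and positive Schnirelmann density if
moreover `0` and `1` belong to `B`).

(3) The growth condition in (2) cannot be dropped: for every `A` of density zero there is an
infinite `B` containing `0` and `1` such that `A + B` has density zero. -/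
theorem result :
    (∀ h : ℕ, 2 ≤ h → ∃ A : Set ℕ, 0 ∈ A ∧ A ≠ {0, 1} ∪ {r | Nat.Prime r} ∧
      (∀ n : ℕ, cnt A n ^ h ≤ n ^ (h - 1)) ∧ HasDensity A 0 ∧
      (∀ B : Set ℕ, IsBasis B h → 1 / (4 * 8 ^ h) ≤ schnirelmannDensity (A + B)) ∧
      (∀ B : Set ℕ, 0 ∈ B → 1 ∈ B → (∀ n : ℕ, n ≤ (cnt B n + 1) ^ h) →
        1 / (4 * 8 ^ h) ≤ schnirelmannDensity (A + B))) ∧
    (∀ g : ℕ → ℕ, Tendsto g atTop atTop →
      ∃ A : Set ℕ, 0 ∈ A ∧ A ≠ {0, 1} ∪ {r | Nat.Prime r} ∧ HasDensity A 0 ∧
        (∀ (h : ℕ) (B : Set ℕ), IsBasis B h →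
          0 < schnirelmannDensity (A + B) ∧ HasDensity (A + B) 1) ∧
        (∀ B : Set ℕ, (∀ᶠ n in atTop, g n ≤ cnt B n) →
          HasDensity (A + B) 1 ∧ (0 ∈ B → 1 ∈ B → 0 < schnirelmannDensity (A + B)))) ∧
    (∀ A : Set ℕ, HasDensity A 0 →
      ∃ B : Set ℕ, 0 ∈ B ∧ 1 ∈ B ∧ B.Infinite ∧ HasDensity (A + B) 0) := by
  have hP1 : (1 : ℕ) ∈ ({0, 1} ∪ {r | Nat.Prime r} : Set ℕ) := by
    left
    simp
  refine ⟨?_, ?_, ?_⟩
  · intro h hh
    obtain ⟨k, rfl⟩ : ∃ k, h = k + 2 := ⟨h - 2, by omega⟩
    have hcount : ∀ n : ℕ, cnt (Y384.SM.Order.A k) n ^ (k + 2) ≤ n ^ (k + 1) := by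
      intro n
      unfold cnt
      exact Y384.SM.Order.count_bound k n
    have key : ∀ B : Set ℕ, 0 ∈ B → 1 ∈ B → (∀ n : ℕ, n ≤ (cnt B n + 1) ^ (k + 2)) →
        (1 : ℝ) / (4 * 8 ^ (k + 2)) ≤ schnirelmannDensity (Y384.SM.Order.A k + B) := by
      intro B h0 h1 hB
      rw [le_schnirelmannDensity_iff]
      intro n hn
      have hn' : 0 < n := by omega
      have h := Y384.SM.Order.lower (k := k) (B := B) h1 (by
        intro m
        have := hB m
        rw [← cnt_range h0 m] at this
        exact this) n hn'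
      have hnR : (0 : ℝ) < n := by exact_mod_cast hn'
      rw [div_le_div_iff₀ (by positivity) hnR]
      have h2 : (n : ℝ) ≤ 4 * 8 ^ (k + 2) *
          ((Ioc 0 n).filter (· ∈ Y384.SM.Order.A k + B)).card := by exact_mod_cast h
      rw [one_mul]
      refine h2.trans (le_of_eq ?_)
      rw [mul_comm]
    refine ⟨Y384.SM.Order.A k, Or.inl rfl, ?_, ?_, zero_density_of_power hcount, ?_, key⟩
    · intro hA
      apply Y384.SM.Order.one_notMem_A k
      rw [hA]
      exact hP1
    · intro n
      have e : k + 2 - 1 = k + 1 := by omega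
      rw [e]
      exact hcount n
    · intro B hB
      refine key B hB.1 (Y384.SM.Conv.one_mem_of_basis hB.2) ?_
      intro n
      have h1 := Y384.SM.Conv.basis_count hB.2 n
      refine h1.trans (Nat.pow_le_pow_left ?_ _)
      rw [← cnt_range hB.1 n]
      apply card_le_card
      apply filter_subset_filter
      intro x hx
      rw [mem_range] at hx ⊢
      omega
  · intro g hg
    set g' : ℕ → ℕ := fun n => min (g (n - 1)) (Nat.log 2 n) with hg'
    have hg't : Tendsto g' atTop atTop := by
      rw [tendsto_atTop_atTop]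
      intro M
      obtain ⟨K, hK⟩ := (tendsto_atTop_atTop.1 hg) M
      obtain ⟨L, hL⟩ := (tendsto_atTop_atTop.1 Y384.SM.Conv.tendsto_log) M
      refine ⟨max (K + 1) L, fun n hn => ?_⟩
      have h1 : K + 1 ≤ n := (le_max_left _ _).trans hn
      exact le_min (hK _ (by omega)) (hL _ ((le_max_right _ _).trans hn))
    obtain ⟨A, h0, h1, hA, hAB⟩ := Y384.SM.Slow.slow g' hg't
    have h1B : ∀ B : Set ℕ, 1 ∈ B → 1 ∈ A + B := fun B hB =>
      Set.mem_add.2 ⟨0, h0, 1, hB, rfl⟩
    refine ⟨A, h0, ?_, hA, ?_, ?_⟩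
    · intro hAP
      apply h1
      rw [hAP]
      exact hP1
    · intro h B hB
      have h2 : HasDensity (A + B) 1 := by
        apply hAB B
        filter_upwards [Y384.SM.Conv.basis_log hB.2] with n hn
        exact (min_le_right _ _).trans hn
      exact ⟨sigma_pos (h1B B (Y384.SM.Conv.one_mem_of_basis hB.2)) h2, h2⟩
    · intro B hB
      have h2 : HasDensity (A + B) 1 := by
        apply hAB B
        obtain ⟨K, hK⟩ := eventually_atTop.1 hB
        filter_upwards [eventually_ge_atTop (K + 1)] with n hn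
        refine (min_le_left _ _).trans ((hK (n - 1) (by omega)).trans ?_)
        unfold cnt
        apply card_le_card
        intro x hx
        rw [mem_filter, mem_Icc] at hx
        rw [mem_filter, mem_range]
        exact ⟨by omega, hx.2⟩
      exact ⟨h2, fun _ h4 => sigma_pos (h1B B h4) h2⟩
  · intro A hA
    exact Y384.SM.Conv.converse A hA

end Pool.Agent.Results.MP_b92640_nt.AllOrders
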